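import Pool.Agent.W23.PL.Defs
import Pool.Agent.H442R2.BX.Bk

/-!
PL project, task BX0 (helper586): the Bessel inequality for the sifting indicator itself.
-/

namespace Pool.Agent.W586.PL

open Finset Filter
open Pool.Agent.H442R2
open Pool.Agent.H442R2.KF
open Pool.Agent.W23.DC
open Pool.Agent.W23.PL

namespace TaskBX0

/-- bounded functions -/
def Bd (g : ℤ → ℝ) : Prop := ∃ K : ℝ, ∀ n, |g n| ≤ K

lemma Bd.mul {g g' : ℤ → ℝ} (h : Bd g) (h' : Bd g') : Bd (fun n => g n * g' n) := by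
  obtain ⟨K, hK⟩ := h
  obtain ⟨K', hK'⟩ := h'
  have h0 : 0 ≤ K := (abs_nonneg _).trans (hK 0)
  refine ⟨K * K', fun n => ?_⟩
  rw [abs_mul]
  exact mul_le_mul (hK n) (hK' n) (abs_nonneg _) h0

lemma Bd.add {g g' : ℤ → ℝ} (h : Bd g) (h' : Bd g') : Bd (fun n => g n + g' n) := by
  obtain ⟨K, hK⟩ := h
  obtain ⟨K', hK'⟩ := h'
  exact ⟨K + K', fun n => (abs_add_le _ _).trans (add_le_add (hK n) (hK' n))⟩

lemma Bd.sub {g g' : ℤ → ℝ} (h : Bd g) (h' : Bd g') : Bd (fun n => g n - g' n) := by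
  obtain ⟨K, hK⟩ := h
  obtain ⟨K', hK'⟩ := h'
  exact ⟨K + K', fun n => (abs_sub _ _).trans (add_le_add (hK n) (hK' n))⟩

lemma Bd.const (c : ℝ) : Bd (fun _ => c) := ⟨|c|, fun _ => le_rfl⟩

section

variable {w : ℤ → ℝ} (hw : Summable w) (hw0 : ∀ n, 0 ≤ w n)
include hw hw0

lemma summ {g : ℤ → ℝ} (hg : Bd g) : Summable (fun n => w n * g n) := by
  obtain ⟨K, hK⟩ := hg
  refine Summable.of_norm_bounded (g := fun n => w n * K) (hw.mul_right K) (fun n => ?_)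
  rw [Real.norm_eq_abs, abs_mul, abs_of_nonneg (hw0 n)]
  exact mul_le_mul_of_nonneg_left (hK n) (hw0 n)

lemma mono {g g' : ℤ → ℝ} (hg : Bd g) (hg' : Bd g') (h : ∀ n, g n ≤ g' n) :
    ∑' n, w n * g n ≤ ∑' n, w n * g' n :=
  Summable.tsum_le_tsum (fun n => mul_le_mul_of_nonneg_left (h n) (hw0 n)) (summ hw hw0 hg)
    (summ hw hw0 hg')

lemma tadd {g g' : ℤ → ℝ} (hg : Bd g) (hg' : Bd g') :
    ∑' n, w n * (g n + g' n) = ∑' n, w n * g n + ∑' n, w n * g' n := by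
  rw [← Summable.tsum_add (summ hw hw0 hg) (summ hw hw0 hg')]
  exact tsum_congr fun n => by ring

omit hw hw0 in
lemma tmul (c : ℝ) (g : ℤ → ℝ) : ∑' n, w n * (c * g n) = c * ∑' n, w n * g n := by
  rw [← tsum_mul_left]
  exact tsum_congr fun n => by ring

/-- the off-diagonal terms -/
lemma core_off {x x' Θ Θ' Δ Δ' : ℤ → ℝ} {T M md V ρ E : ℝ}
    (hx0 : ∀ n, 0 ≤ x n) (hx1 : ∀ n, x n ≤ 1) (hxT : ∀ n, x n ≤ Θ n) (hxD : ∀ n, Θ n - x n ≤ Δ n)
    (hx0' : ∀ n, 0 ≤ x' n) (hx1' : ∀ n, x' n ≤ 1) (hxT' : ∀ n, x' n ≤ Θ' n)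
    (hxD' : ∀ n, Θ' n - x' n ≤ Δ' n)
    (bT : Bd Θ) (bT' : Bd Θ') (bD : Bd Δ) (bD' : Bd Δ')
    (h22 : |∑' n, w n * (Θ n * Θ' n) - T * (M * M)| ≤ E)
    (hD2 : |∑' n, w n * (Δ n * Θ' n) - T * (md * M)| ≤ E)
    (h2D : |∑' n, w n * (Θ n * Δ' n) - T * (M * md)| ≤ E)
    (h1 : |∑' n, w n * Θ n - T * M| ≤ E) (h1' : |∑' n, w n * Θ' n - T * M| ≤ E)
    (hd : |∑' n, w n * Δ n - T * md| ≤ E) (hd' : |∑' n, w n * Δ' n - T * md| ≤ E)
    (h0 : |∑' n, w n * 1 - T| ≤ E)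
    (hM : |M - V| ≤ ρ * V) (hmd : |md| ≤ ρ * V) (hρ0 : 0 ≤ ρ) (hρ1 : ρ ≤ 1) (hV0 : 0 ≤ V)
    (hV1 : V ≤ 1) :
    |∑' n, w n * ((x n - V) * (x' n - V))| ≤ 7 * (|T| * (ρ * V ^ 2)) + 8 * E := by
  have bx : Bd x := ⟨1, fun n => by rw [abs_of_nonneg (hx0 n)]; exact hx1 n⟩
  have bx' : Bd x' := ⟨1, fun n => by rw [abs_of_nonneg (hx0' n)]; exact hx1' n⟩
  have hE : 0 ≤ E := (abs_nonneg _).trans h0
  set a1 := ∑' n, w n * (x n * x' n) with ha1
  set a2 := ∑' n, w n * x n with ha2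
  set a3 := ∑' n, w n * x' n with ha3
  set a0 := ∑' n, w n * (1 : ℝ) with ha0
  have hval : ∑' n, w n * ((x n - V) * (x' n - V)) = a1 - V * a2 - V * a3 + V ^ 2 * a0 := by
    have e : ∀ n, w n * ((x n - V) * (x' n - V)) =
        w n * ((x n * x' n + (-V) * x n) + ((-V) * x' n + V ^ 2 * 1)) := fun n => by ring
    rw [tsum_congr e,
      tadd hw hw0 ((bx.mul bx').add ((Bd.const (-V)).mul bx))
        (((Bd.const (-V)).mul bx').add ((Bd.const (V ^ 2)).mul (Bd.const 1))),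
      tadd hw hw0 (bx.mul bx') ((Bd.const (-V)).mul bx),
      tadd hw hw0 ((Bd.const (-V)).mul bx') ((Bd.const (V ^ 2)).mul (Bd.const 1)), tmul, tmul, tmul]
    ring
  have u1 : a1 ≤ ∑' n, w n * (Θ n * Θ' n) :=
    mono hw hw0 (bx.mul bx') (bT.mul bT') fun n =>
      mul_le_mul (hxT n) (hxT' n) (hx0' n) ((hx0 n).trans (hxT n))
  have l1 : ∑' n, w n * (Θ n * Θ' n) ≤
      a1 + (∑' n, w n * (Δ n * Θ' n) + ∑' n, w n * (Θ n * Δ' n)) := by
    rw [ha1, ← tadd hw hw0 (bD.mul bT') (bT.mul bD'),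
      ← tadd hw hw0 (bx.mul bx') ((bD.mul bT').add (bT.mul bD'))]
    refine mono hw hw0 (bT.mul bT') ((bx.mul bx').add ((bD.mul bT').add (bT.mul bD'))) fun n => ?_
    have t0 : 0 ≤ Θ n := (hx0 n).trans (hxT n)
    have t0' : 0 ≤ Θ' n := (hx0' n).trans (hxT' n)
    have d0' : 0 ≤ Δ' n := by linarith [hxD' n, hxT' n]
    have s1 : (Θ n - x n) * Θ' n ≤ Δ n * Θ' n := mul_le_mul_of_nonneg_right (hxD n) t0'
    have s2 : x n * (Θ' n - x' n) ≤ x n * Δ' n := mul_le_mul_of_nonneg_left (hxD' n) (hx0 n)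
    have s3 : x n * Δ' n ≤ Θ n * Δ' n := mul_le_mul_of_nonneg_right (hxT n) d0'
    linarith
  have u2 : a2 ≤ ∑' n, w n * Θ n := mono hw hw0 bx bT hxT
  have l2 : ∑' n, w n * Θ n ≤ a2 + ∑' n, w n * Δ n := by
    rw [ha2, ← tadd hw hw0 bx bD]
    exact mono hw hw0 bT (bx.add bD) fun n => by linarith [hxD n]
  have u3 : a3 ≤ ∑' n, w n * Θ' n := mono hw hw0 bx' bT' hxT'
  have l3 : ∑' n, w n * Θ' n ≤ a3 + ∑' n, w n * Δ' n := by
    rw [ha3, ← tadd hw hw0 bx' bD']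
    exact mono hw hw0 bT' (bx'.add bD') fun n => by linarith [hxD' n]
  rw [hval]
  obtain ⟨p1, p2⟩ := abs_le.1 h22
  obtain ⟨p3, p4⟩ := abs_le.1 hD2
  obtain ⟨p5, p6⟩ := abs_le.1 h2D
  obtain ⟨p7, p8⟩ := abs_le.1 h1
  obtain ⟨p9, p10⟩ := abs_le.1 h1'
  obtain ⟨p11, p12⟩ := abs_le.1 hd
  obtain ⟨p13, p14⟩ := abs_le.1 hd'
  obtain ⟨p15, p16⟩ := abs_le.1 h0
  -- bounds for a2, a3
  have b2u : V * a2 ≤ V * (T * M + E) := mul_le_mul_of_nonneg_left (by linarith) hV0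
  have b2l : V * (T * M - T * md - 2 * E) ≤ V * a2 := mul_le_mul_of_nonneg_left (by linarith) hV0
  have b3u : V * a3 ≤ V * (T * M + E) := mul_le_mul_of_nonneg_left (by linarith) hV0
  have b3l : V * (T * M - T * md - 2 * E) ≤ V * a3 := mul_le_mul_of_nonneg_left (by linarith) hV0
  have hV2 : 0 ≤ V ^ 2 := sq_nonneg V
  have b0u : V ^ 2 * a0 ≤ V ^ 2 * (T + E) := mul_le_mul_of_nonneg_left (by linarith) hV2
  have b0l : V ^ 2 * (T - E) ≤ V ^ 2 * a0 := mul_le_mul_of_nonneg_left (by linarith) hV2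
  have hV21 : V ^ 2 ≤ 1 := pow_le_one₀ hV0 hV1
  have e1 : V * E ≤ E := by nlinarith
  have e2 : V ^ 2 * E ≤ E := by nlinarith
  have e3 : 0 ≤ V * E := mul_nonneg hV0 hE
  have e4 : 0 ≤ V ^ 2 * E := mul_nonneg hV2 hE
  set Q := |T| * (ρ * V ^ 2) with hQ
  have hQ0 : 0 ≤ Q := by positivity
  -- the three main quantities
  have q1 : |T * (M - V) ^ 2| ≤ Q := by
    rw [abs_mul, hQ]
    apply mul_le_mul_of_nonneg_left _ (abs_nonneg T)
    rw [abs_of_nonneg (sq_nonneg _), ← sq_abs]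
    calc |M - V| ^ 2 ≤ (ρ * V) ^ 2 := pow_le_pow_left₀ (abs_nonneg _) hM 2
      _ = ρ * (ρ * V ^ 2) := by ring
      _ ≤ 1 * (ρ * V ^ 2) := mul_le_mul_of_nonneg_right hρ1 (by positivity)
      _ = ρ * V ^ 2 := one_mul _
  have hM2 : |M| ≤ 2 * V := by
    have h5 := abs_le.1 hM
    have h6 : ρ * V ≤ V := by nlinarith
    rw [abs_le]
    constructor <;> linarith [h5.1, h5.2]
  have q2 : |T * (md * M)| ≤ 2 * Q := by
    rw [abs_mul, abs_mul, hQ]
    have : |md| * |M| ≤ (ρ * V) * (2 * V) := mul_le_mul hmd hM2 (abs_nonneg _) (by positivity)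
    calc |T| * (|md| * |M|) ≤ |T| * ((ρ * V) * (2 * V)) :=
          mul_le_mul_of_nonneg_left this (abs_nonneg T)
      _ = _ := by ring
  have q3 : |V * (T * md)| ≤ Q := by
    rw [abs_mul, abs_mul, hQ, abs_of_nonneg hV0]
    calc V * (|T| * |md|) ≤ V * (|T| * (ρ * V)) := by gcongr
      _ = _ := by ring
  obtain ⟨r1, r2⟩ := abs_le.1 q1
  obtain ⟨r3, r4⟩ := abs_le.1 q2
  obtain ⟨r5, r6⟩ := abs_le.1 q3
  rw [abs_le]
  constructor
  · nlinarith
  · nlinarith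

/-- the diagonal terms -/
lemma core_diag {x Θ : ℤ → ℝ} {T M V ρ E : ℝ}
    (hx0 : ∀ n, 0 ≤ x n) (hx1 : ∀ n, x n ≤ 1) (hxT : ∀ n, x n ≤ Θ n) (bT : Bd Θ)
    (h1 : |∑' n, w n * Θ n - T * M| ≤ E) (h0 : |∑' n, w n * 1 - T| ≤ E)
    (hM : |M - V| ≤ ρ * V) (hρ1 : ρ ≤ 1) (hV0 : 0 ≤ V) (hV1 : V ≤ 1) :
    ∑' n, w n * ((x n - V) * (x n - V)) ≤ 3 * (|T| * V) + 2 * E := by
  have bx : Bd x := ⟨1, fun n => by rw [abs_of_nonneg (hx0 n)]; exact hx1 n⟩
  have hE : 0 ≤ E := (abs_nonneg _).trans h0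
  have h2 : ∑' n, w n * ((x n - V) * (x n - V)) ≤ ∑' n, w n * (Θ n + V ^ 2 * 1) := by
    refine mono hw hw0 ((bx.sub (Bd.const V)).mul (bx.sub (Bd.const V)))
      (bT.add ((Bd.const (V ^ 2)).mul (Bd.const 1))) fun n => ?_
    have a := hx0 n
    have b := hx1 n
    have c := hxT n
    nlinarith [mul_nonneg a hV0]
  rw [tadd hw hw0 bT ((Bd.const (V ^ 2)).mul (Bd.const 1)), tmul] at h2
  have hV2 : 0 ≤ V ^ 2 := sq_nonneg V
  have hV21 : V ^ 2 ≤ 1 := pow_le_one₀ hV0 hV1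
  have h3 := (abs_le.1 h1).2
  have h4 := (abs_le.1 h0).2
  have b0u : V ^ 2 * ∑' n, w n * (1 : ℝ) ≤ V ^ 2 * (T + E) :=
    mul_le_mul_of_nonneg_left (by linarith) hV2
  have hM2 : |M| ≤ 2 * V := by
    have h5 := abs_le.1 hM
    have h6 : ρ * V ≤ V := by nlinarith
    rw [abs_le]
    constructor <;> linarith [h5.1, h5.2]
  have h5 : T * M ≤ |T| * (2 * V) := by
    calc T * M ≤ |T * M| := le_abs_self _
      _ = |T| * |M| := abs_mul _ _
      _ ≤ |T| * (2 * V) := mul_le_mul_of_nonneg_left hM2 (abs_nonneg _)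
  have h6 : V ^ 2 * T ≤ |T| * V := by
    calc V ^ 2 * T ≤ V ^ 2 * |T| := mul_le_mul_of_nonneg_left (le_abs_self _) hV2
      _ = (|T| * V) * V := by ring
      _ ≤ (|T| * V) * 1 := mul_le_mul_of_nonneg_left hV1 (by positivity)
      _ = _ := mul_one _
  nlinarith

end

/-- the trivial coefficient -/
def th1 (e : ℕ) : ℝ := if e = 1 then 1 else 0

lemma Ev_th1 {D : ℕ} (hD : 1 ≤ D) (m : ℤ) : Ev th1 D m = 1 := by
  unfold Ev
  rw [Finset.sum_eq_single 1]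
  · simp [th1]
  · intro b _ hb
    simp [th1, hb]
  · intro h
    exact absurd (mem_Icc.2 ⟨le_rfl, hD⟩) h

lemma hat_th1 {D : ℕ} (hD : 1 ≤ D) : hat th1 D = 1 := by
  unfold hat
  rw [Finset.sum_eq_single 1]
  · simp [th1]
  · intro b _ hb
    simp [th1, hb]
  · intro h
    exact absurd (mem_Icc.2 ⟨le_rfl, hD⟩) h

lemma dw_th1 {P : Finset ℕ} {D : ℕ} {U : ℝ} (hD : 1 ≤ D) (hU : 1 ≤ U) : DW P D U th1 := by
  refine ⟨fun e => ?_, fun e he => ?_⟩
  · unfold th1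
    split_ifs
    · rw [abs_one]; exact hU
    · rw [abs_zero]; linarith
  · have h1 : e = 1 := by
      by_contra h
      exact he (by simp [th1, h])
    subst h1
    exact ⟨squarefree_one, hD, fun p hp h => absurd (Nat.dvd_one.1 h) hp.one_lt.ne'⟩

lemma Bd_Ev (th : ℕ → ℝ) (D : ℕ) (a : ℤ) : Bd (fun n => Ev th D (n - a)) := by
  refine ⟨∑ e ∈ Icc 1 D, |th e|, fun n => ?_⟩
  unfold Ev
  refine (abs_sum_le_sum_abs _ _).trans (sum_le_sum fun e _ => ?_)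
  rw [abs_mul]
  have : |(if (e : ℤ) ∣ n - a then (1 : ℝ) else 0)| ≤ 1 := by
    split_ifs <;> simp
  calc |th e| * _ ≤ |th e| * 1 := mul_le_mul_of_nonneg_left this (abs_nonneg _)
    _ = _ := mul_one _

lemma xx_nonneg (P : Finset ℕ) (m : ℤ) : 0 ≤ xx P m := by
  unfold xx; split_ifs <;> norm_num

lemma xx_le_one (P : Finset ℕ) (m : ℤ) : xx P m ≤ 1 := by
  unfold xx; split_ifs <;> norm_num

lemma VV_range {P : Finset ℕ} (hP : ∀ p ∈ P, p.Prime) : 0 ≤ VV P ∧ VV P ≤ 1 := by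
  have h : ∀ p ∈ P, 0 ≤ 1 - 1 / (p : ℝ) ∧ 1 - 1 / (p : ℝ) ≤ 1 := by
    intro p hp
    have h2 : (1 : ℝ) ≤ p := by exact_mod_cast (hP p hp).one_lt.le
    have h3 : 1 / (p : ℝ) ≤ 1 := by rw [div_le_one (by linarith)]; exact h2
    have h4 : 0 ≤ 1 / (p : ℝ) := by positivity
    constructor <;> linarith
  exact ⟨Finset.prod_nonneg fun p hp => (h p hp).1,
    Finset.prod_le_one (fun p hp => (h p hp).1) fun p hp => (h p hp).2⟩

/-- elementary estimate of the error term -/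
lemma err_le {C ρ L x V y : ℝ} {B : ℕ} (hC : 0 < C) (hρ : 0 < ρ) (hL : 2 ≤ L) (hx : L ^ 6 ≤ x)
    (hK : 16 * C / ρ + 4 / ρ ≤ L) (hV : 1 / L ≤ V) (hB : 40 ≤ B) (hy : y = L ^ B) :
    8 * (C * L ^ 2 * (x * L ^ 20 / y + 1)) ≤ ρ * V ^ 2 * (x / L) ∧
      2 * x ≤ ρ * V ^ 2 * (x / L) ^ 2 := by
  have hL0 : 0 < L := by linarith
  have hL1 : 1 ≤ L := by linarith
  have hx0 : 0 < x := lt_of_lt_of_le (by positivity) hx
  have hV2 : 1 / L ^ 2 ≤ V ^ 2 := by
    have := pow_le_pow_left₀ (by positivity) hV 2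
    rwa [div_pow, one_pow] at this
  have h1 : ρ * (1 / L ^ 2) * (x / L) ≤ ρ * V ^ 2 * (x / L) := by gcongr
  have h2 : x * L ^ 20 / y ≤ x / L ^ 20 := by
    rw [hy, div_le_div_iff₀ (by positivity) (by positivity)]
    have : L ^ 40 ≤ L ^ B := pow_le_pow_right₀ hL1 hB
    calc x * L ^ 20 * L ^ 20 = x * L ^ 40 := by ring
      _ ≤ x * L ^ B := mul_le_mul_of_nonneg_left this hx0.le
  have hKC : 16 * C ≤ ρ * L := by
    have h3 : 0 ≤ 4 / ρ := by positivity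
    have h4 : 16 * C / ρ ≤ L := by linarith
    rw [div_le_iff₀ hρ] at h4
    linarith
  have hKρ : 4 ≤ ρ * L := by
    have h3 : 0 ≤ 16 * C / ρ := by positivity
    have h4 : 4 / ρ ≤ L := by linarith
    rw [div_le_iff₀ hρ] at h4
    linarith
  constructor
  · refine le_trans ?_ h1
    have h3 : 8 * (C * L ^ 2 * (x * L ^ 20 / y + 1)) ≤ 8 * (C * L ^ 2 * (x / L ^ 20 + 1)) := by
      gcongr
    refine h3.trans ?_
    have h4 : 8 * (C * L ^ 2 * (x / L ^ 20)) ≤ 1 / 2 * (ρ * (1 / L ^ 2) * (x / L)) := by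
      have e1 : 8 * (C * L ^ 2 * (x / L ^ 20)) = (16 * C) * (x / (2 * L ^ 18)) := by
        field_simp
        ring
      have e2 : 1 / 2 * (ρ * (1 / L ^ 2) * (x / L)) = (ρ * L) * (x / (2 * L ^ 4)) := by
        field_simp
      rw [e1, e2]
      have h5 : x / (2 * L ^ 18) ≤ x / (2 * L ^ 4) := by
        apply div_le_div_of_nonneg_left hx0.le (by positivity)
        have : L ^ 4 ≤ L ^ 18 := pow_le_pow_right₀ hL1 (by norm_num)
        linarith
      exact mul_le_mul hKC h5 (by positivity) (by positivity)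
    have h6 : 8 * (C * L ^ 2) ≤ 1 / 2 * (ρ * (1 / L ^ 2) * (x / L)) := by
      have e2 : 1 / 2 * (ρ * (1 / L ^ 2) * (x / L)) = (ρ * L) * (x / L ^ 4) / 2 := by
        field_simp
      rw [e2]
      have h7 : L ^ 2 ≤ x / L ^ 4 := by
        rw [le_div_iff₀ (by positivity)]
        calc L ^ 2 * L ^ 4 = L ^ 6 := by ring
          _ ≤ x := hx
      have h8 : (16 * C) * L ^ 2 ≤ (ρ * L) * (x / L ^ 4) :=
        mul_le_mul hKC h7 (by positivity) (by positivity)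
      linarith
    linarith
  · have h3 : ρ * (1 / L ^ 2) * (x / L) ^ 2 ≤ ρ * V ^ 2 * (x / L) ^ 2 := by gcongr
    refine le_trans ?_ h3
    have e2 : ρ * (1 / L ^ 2) * (x / L) ^ 2 = (ρ * L) * (x / L ^ 5) * x := by
      field_simp
    rw [e2]
    have h7 : 1 ≤ x / L ^ 5 := by
      rw [le_div_iff₀ (by positivity), one_mul]
      exact (pow_le_pow_right₀ hL1 (by norm_num)).trans hx
    have h8 : (4 : ℝ) * 1 ≤ (ρ * L) * (x / L ^ 5) := mul_le_mul hKρ h7 (by norm_num) (by positivity)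
    nlinarith

end TaskBX0

open TaskBX0

theorem BX0 (hFLW : St_FLW) (hCOR : St_COR) (hVLB : St_VLB) (hDU : BX.St_DU) (hWXS : St_WXS)
    (_hGS : BX.St_GS) (_hGW : BX.St_GW) : St_BX0 := by
  intro A₀ hA₀
  obtain ⟨εs, hεs, hflw⟩ := hFLW (1 / 40) (A₀ + 20) (by norm_num) (by linarith)
  obtain ⟨c₂, hc₂, hvlb⟩ := hVLB
  obtain ⟨C, Nc, hC, hcor⟩ := hCOR
  refine ⟨min εs 1, lt_min hεs one_pos, ?_⟩
  intro ε₁ hε₁ hε₁s
  have hε1 : ε₁ ≤ 1 := hε₁s.trans (min_le_right _ _)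
  refine ⟨100000000, by norm_num, ?_⟩
  intro B hB
  obtain ⟨Nf, hNf⟩ := hflw ε₁ hε₁ (hε₁s.trans (min_le_left _ _)) B (by omega)
  obtain ⟨Nv, hNv⟩ := hvlb B (by omega) ε₁ hε₁ hε1
  set ρ : ℝ := Real.exp (-((A₀ + 20) / ε₁)) with hρ
  have hρ0 : 0 < ρ := Real.exp_pos _
  have hρ1 : ρ ≤ 1 := by
    rw [hρ]
    apply Real.exp_le_one_iff.2
    have : 0 ≤ (A₀ + 20) / ε₁ := by positivity
    linarith
  have hρA : 250000000 * ρ ≤ Real.exp (-(A₀ / ε₁)) := by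
    have h1 : ρ = Real.exp (-(A₀ / ε₁)) * Real.exp (-(20 / ε₁)) := by
      rw [hρ, ← Real.exp_add]
      congr 1
      ring
    have h2 : Real.exp (-(20 / ε₁)) ≤ Real.exp (-20) := by
      apply Real.exp_le_exp.2
      have : 20 ≤ 20 / ε₁ := by
        rw [le_div_iff₀ hε₁]
        linarith
      linarith
    have h3 : 250000000 * Real.exp (-20) ≤ 1 := by
      have h4 : (250000000 : ℝ) ≤ Real.exp 20 := by
        have h5 : Real.exp 20 = Real.exp 1 ^ 20 := by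
          rw [← Real.exp_nat_mul]; norm_num
        rw [h5]
        calc (250000000 : ℝ) ≤ 2.7 ^ 20 := by norm_num
          _ ≤ Real.exp 1 ^ 20 := pow_le_pow_left₀ (by norm_num)
            (by linarith [Real.exp_one_gt_d9]) 20
      have h6 : Real.exp 20 * Real.exp (-20) = 1 := by rw [← Real.exp_add]; simp
      have h7 := Real.exp_pos (-20)
      nlinarith
    rw [h1]
    have h8 := Real.exp_pos (-(A₀ / ε₁))
    calc 250000000 * (Real.exp (-(A₀ / ε₁)) * Real.exp (-(20 / ε₁)))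
        = Real.exp (-(A₀ / ε₁)) * (250000000 * Real.exp (-(20 / ε₁))) := by ring
      _ ≤ Real.exp (-(A₀ / ε₁)) * 1 := by
          apply mul_le_mul_of_nonneg_left _ h8.le
          linarith
      _ = _ := mul_one _
  -- large N
  have hev : ∀ᶠ N : ℕ in atTop, (2 : ℝ) ≤ (N : ℝ) ^ (1 / 80 : ℝ) ∧ 2 ≤ Real.log N ∧
      Real.log N ^ 6 ≤ N ∧ 16 * C / ρ + 4 / ρ ≤ Real.log N ∧ 1 / c₂ ≤ Real.log (Real.log N) := by
    have hcast := tendsto_natCast_atTop_atTop (R := ℝ)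
    have t1 := ((tendsto_rpow_atTop (show (0 : ℝ) < 1 / 80 by norm_num)).comp
      hcast).eventually_ge_atTop 2
    have tl := Real.tendsto_log_atTop.comp hcast
    have t2 := tl.eventually_ge_atTop 2
    have t3 : ∀ᶠ x : ℝ in atTop, Real.log x ^ 6 ≤ x := by
      have h := (Real.isLittleO_pow_log_id_atTop (n := 6)).bound (c := 1) one_pos
      filter_upwards [h, eventually_ge_atTop 1] with x hx hx1
      rw [one_mul, Real.norm_eq_abs, Real.norm_eq_abs] at hx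
      have h2 : |id x| = x := abs_of_nonneg (by simp; linarith)
      rw [h2] at hx
      exact (le_abs_self _).trans hx
    have t3' := hcast.eventually t3
    have t4 := tl.eventually_ge_atTop (16 * C / ρ + 4 / ρ)
    have t5 := (Real.tendsto_log_atTop.comp tl).eventually_ge_atTop (1 / c₂)
    filter_upwards [t1, t2, t3', t4, t5] with N h1 h2 h3 h4 h5
    exact ⟨h1, h2, h3, h4, h5⟩
  obtain ⟨Ne, hNe⟩ := eventually_atTop.1 hev
  refine ⟨Nc + Nf + Nv + Ne + 2, ?_⟩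
  intro N hN f hf 𝒜 h𝒜
  obtain ⟨hg2, hL2, hL6, hLK, hLc⟩ := hNe N (by omega)
  have hN2 : 2 ≤ N := by omega
  have hNr : (2 : ℝ) ≤ N := by exact_mod_cast hN2
  have hN0 : (0 : ℝ) < N := by linarith
  have hN1 : (1 : ℝ) ≤ N := by linarith
  set L := Real.log N with hLdef
  have hL0 : 0 < L := by linarith
  have hL1 : 1 ≤ L := by linarith
  set P := P1 N B ε₁ with hPdef
  set V := VV P with hVdef
  have hPp : ∀ p ∈ P, p.Prime ∧ L ^ B ≤ (p : ℝ) := by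
    intro p hp
    rw [hPdef] at hp
    unfold P1 at hp
    rw [mem_filter] at hp
    exact ⟨hp.2.1, hp.2.2.1⟩
  obtain ⟨hV0, hV1⟩ := VV_range (P := P) (fun p hp => (hPp p hp).1)
  have hVL : 1 / L ≤ V := by
    have h1 := (hNv N (by omega)).1
    refine le_trans ?_ h1
    have h2 : 1 ≤ c₂ * Real.log L := by
      rw [div_le_iff₀ hc₂] at hLc
      linarith
    have h3 : (1 : ℝ) ≤ B := by exact_mod_cast (by omega : 1 ≤ B)
    have h4 : c₂ * (B * Real.log L / (ε₁ * L)) = (c₂ * Real.log L) * B / (ε₁ * L) := by ring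
    rw [h4, div_le_div_iff₀ hL0 (by positivity)]
    have h5 : ε₁ * L ≤ 1 * L := mul_le_mul_of_nonneg_right hε1 hL0.le
    have h6 : (1 : ℝ) * 1 ≤ (c₂ * Real.log L) * B := mul_le_mul h2 h3 zero_le_one (by linarith)
    nlinarith
  -- the sieve
  obtain ⟨D, hD⟩ : ∃ D : ℕ, D = ⌊(N : ℝ) ^ (1 / 40 : ℝ)⌋₊ := ⟨_, rfl⟩
  obtain ⟨th, dl, hth, hdl, hsand, hhat, hhatd⟩ := hNf N (by omega) D hD
  rw [← hPdef, ← hLdef] at hth hdl
  rw [← hPdef] at hsand hhat hhatd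
  rw [← hVdef] at hhat hhatd
  have hgg : (N : ℝ) ^ (1 / 40 : ℝ) = (N : ℝ) ^ (1 / 80 : ℝ) * (N : ℝ) ^ (1 / 80 : ℝ) := by
    rw [← Real.rpow_add hN0]; norm_num
  have hD1 : (D : ℝ) ≤ (N : ℝ) ^ (1 / 40 : ℝ) := by
    rw [hD]; exact Nat.floor_le (Real.rpow_nonneg hN0.le _)
  have hDg : (N : ℝ) ^ (1 / 80 : ℝ) ≤ D := by
    have hz2 : (N : ℝ) ^ (1 / 40 : ℝ) < D + 1 := by
      rw [hD]; exact Nat.lt_floor_add_one _
    rw [hgg] at hz2
    nlinarith
  have hD2 : 2 ≤ D := by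
    have : (2 : ℝ) ≤ D := hg2.trans hDg
    exact_mod_cast this
  have hD20 : (D : ℝ) ≤ (N : ℝ) ^ (1 / 20 : ℝ) :=
    hD1.trans (Real.rpow_le_rpow_of_exponent_le hN1 (by norm_num))
  have hlogD : L / 80 ≤ Real.log D := by
    have h1 : Real.log ((N : ℝ) ^ (1 / 80 : ℝ)) ≤ Real.log D :=
      Real.log_le_log (by linarith) hDg
    rw [Real.log_rpow hN0] at h1
    linarith
  obtain ⟨lam, hlam⟩ := hWXS D hD2
  set w : ℤ → ℝ := fun n => Wt N n * BX.nuS lam D n with hwdef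
  have hw : Summable w := BX.TaskBK.summ_w (by omega) hlam.sw
  have hw0 : ∀ n, 0 ≤ w n := fun n => BX.TaskBK.w_nonneg N D lam n
  set T : ℝ := N * LF lam D with hT
  set y : ℝ := L ^ B with hy
  set E : ℝ := C * L ^ 2 * (N * L ^ 20 / y + 1) with hE
  have hE0 : 0 ≤ E := by positivity
  have hy2 : 2 ≤ y := by
    calc (2 : ℝ) ≤ L := hL2
      _ = L ^ 1 := (pow_one _).symm
      _ ≤ L ^ B := pow_le_pow_right₀ hL1 (by omega)
  obtain ⟨hErr, hSmall⟩ := err_le (x := (N : ℝ)) (y := y) hC hρ0 hL2 hL6 hLK hVL hB hy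
  rw [← hE] at hErr
  have hQ0 : 0 < (N : ℝ) / L := by positivity
  -- correlations
  have cor : ∀ u u' : ℕ → ℝ, DW P D L u → DW P D L u' → ∀ a a' : ℤ, a ≠ 0 → a' ≠ 0 → a ≠ a' →
      |(a : ℝ)| ≤ 2 * N → |(a' : ℝ)| ≤ 2 * N →
      |∑' n : ℤ, w n * (Ev u D (n - a) * Ev u' D (n - a')) - T * (hat u D * hat u' D)| ≤ E :=
    fun u u' hu hu' a a' ha ha' haa hb hb' =>
      hcor N (by omega) D D hD20 hD20 lam hlam P y hy2 hPp L u u' hL0.le hu hu' a a' ha ha' haa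
        hb hb'
  have hd1 : DW P D L th1 := dw_th1 (by omega) hL1
  have hE1 : ∀ m, Ev th1 D m = 1 := Ev_th1 (by omega)
  have hh1 : hat th1 D = 1 := hat_th1 (by omega)
  have cor10 : ∀ u : ℕ → ℝ, DW P D L u → ∀ a a' : ℤ, a ≠ 0 → a' ≠ 0 → a ≠ a' →
      |(a : ℝ)| ≤ 2 * N → |(a' : ℝ)| ≤ 2 * N →
      |∑' n : ℤ, w n * Ev u D (n - a) - T * hat u D| ≤ E := by
    intro u hu a a' ha ha' haa hb hb'
    have h := cor u th1 hu hd1 a a' ha ha' haa hb hb'
    simp only [hE1, hh1, mul_one] at h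
    exact h
  have cor00 : |∑' n : ℤ, w n * 1 - T| ≤ E := by
    have h := cor th1 th1 hd1 hd1 1 2 (by norm_num) (by norm_num) (by norm_num)
      (by norm_num; linarith) (by norm_num; linarith)
    simp only [hE1, hh1, mul_one] at h
    simpa using h
  -- size of T
  have hLF : LF lam D ≤ 160 / L := by
    have h1 : LF lam D ≤ 2 / Real.log D := hlam.sw.form
    refine h1.trans ?_
    rw [div_le_div_iff₀ (by linarith) hL0]
    linarith
  have hEV : 8 * E ≤ V * (N / L) := by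
    refine hErr.trans ?_
    have : ρ * V ^ 2 ≤ V := by
      calc ρ * V ^ 2 ≤ 1 * V ^ 2 := by gcongr
        _ = V * V := by ring
        _ ≤ V * 1 := mul_le_mul_of_nonneg_left hV1 hV0
        _ = V := mul_one _
    gcongr
  have hEN : E ≤ N / L := by
    have : V * (N / L) ≤ 1 * (N / L) := by gcongr
    linarith
  have hsum1 : 0 ≤ ∑' n : ℤ, w n * 1 := tsum_nonneg fun n => by
    rw [mul_one]; exact hw0 n
  have hTabs : |T| ≤ 160 * (N / L) := by
    have h1 := abs_le.1 cor00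
    rw [abs_le]
    constructor
    · linarith
    · rw [hT]
      calc (N : ℝ) * LF lam D ≤ N * (160 / L) := mul_le_mul_of_nonneg_left hLF hN0.le
        _ = 160 * (N / L) := by ring
  -- the functions
  have hbound : ∀ a ∈ 𝒜, |(a : ℝ)| ≤ 2 * N := fun a ha => by linarith [(h𝒜 a ha).2]
  set r : ℤ → ℤ → ℝ := fun a n => xx P (n - a) - V with hr
  set G : ℝ := 484 * (V * (N / L)) with hG
  set O : ℝ := 1121 * (ρ * V ^ 2 * (N / L)) with hO
  have hG0 : 0 ≤ G := by positivity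
  have hO0 : 0 ≤ O := by positivity
  have hdiag : ∀ a ∈ 𝒜, ∑' n : ℤ, w n * (r a n * r a n) ≤ G := by
    intro a ha
    obtain ⟨b, hb0, hba, hbN⟩ : ∃ b : ℤ, b ≠ 0 ∧ a ≠ b ∧ |(b : ℝ)| ≤ 2 * N := by
      by_cases h : a = 1
      · refine ⟨2, by norm_num, by omega, ?_⟩
        norm_num
        linarith
      · refine ⟨1, by norm_num, h, ?_⟩
        norm_num
        linarith
    have h := core_diag hw hw0 (x := fun n => xx P (n - a)) (Θ := fun n => Ev th D (n - a))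
      (T := T) (M := hat th D) (V := V) (ρ := ρ) (E := E) (fun n => xx_nonneg P _)
      (fun n => xx_le_one P _) (fun n => (hsand _).1) (Bd_Ev th D a)
      (cor10 th hth a b (h𝒜 a ha).1 hb0 hba (hbound a ha) hbN) cor00 hhat hρ1 hV0 hV1
    refine h.trans ?_
    have h2 : |T| * V ≤ 160 * (N / L) * V := mul_le_mul_of_nonneg_right hTabs hV0
    rw [hG]
    nlinarith
  have hoff : ∀ a ∈ 𝒜, ∀ a' ∈ 𝒜, a ≠ a' → |∑' n : ℤ, w n * (r a n * r a' n)| ≤ O := by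
    intro a ha a' ha' haa
    have a0 := (h𝒜 a ha).1
    have a0' := (h𝒜 a' ha').1
    have ab := hbound a ha
    have ab' := hbound a' ha'
    have h := core_off hw hw0 (x := fun n => xx P (n - a)) (x' := fun n => xx P (n - a'))
      (Θ := fun n => Ev th D (n - a)) (Θ' := fun n => Ev th D (n - a'))
      (Δ := fun n => Ev dl D (n - a)) (Δ' := fun n => Ev dl D (n - a'))
      (T := T) (M := hat th D) (md := hat dl D) (V := V) (ρ := ρ) (E := E)
      (fun n => xx_nonneg P _) (fun n => xx_le_one P _) (fun n => (hsand _).1)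
      (fun n => (hsand _).2)
      (fun n => xx_nonneg P _) (fun n => xx_le_one P _) (fun n => (hsand _).1)
      (fun n => (hsand _).2) (Bd_Ev th D a) (Bd_Ev th D a') (Bd_Ev dl D a) (Bd_Ev dl D a')
      (cor th th hth hth a a' a0 a0' haa ab ab') (cor dl th hdl hth a a' a0 a0' haa ab ab')
      (cor th dl hth hdl a a' a0 a0' haa ab ab')
      (cor10 th hth a a' a0 a0' haa ab ab') (cor10 th hth a' a a0' a0 haa.symm ab' ab)
      (cor10 dl hdl a a' a0 a0' haa ab ab') (cor10 dl hdl a' a a0' a0 haa.symm ab' ab)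
      cor00 hhat hhatd hρ0.le hρ1 hV0 hV1
    refine h.trans ?_
    have h2 : |T| * (ρ * V ^ 2) ≤ 160 * (N / L) * (ρ * V ^ 2) :=
      mul_le_mul_of_nonneg_right hTabs (by positivity)
    rw [hO]
    linarith
  have hw25 : ∀ p ∈ (Icc 1 N).filter (fun p => p.Prime ∧ D < p), (1 : ℝ) ≤ 25 * w (p : ℤ) := by
    intro p hp
    rw [mem_filter, mem_Icc] at hp
    exact BX.TaskBK.w_prime hlam.sw (by omega) hp.2.1 hp.2.2 hp.1.2
  have bxx : ∀ a : ℤ, Bd (fun n => xx P (n - a)) := fun a =>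
    ⟨1, fun n => by rw [abs_of_nonneg (xx_nonneg _ _)]; exact xx_le_one _ _⟩
  have hdu := hDU w hw0 ((Icc 1 N).filter (fun p => p.Prime ∧ D < p)) hw25 𝒜 r f
    (fun a _ a' _ => summ hw hw0 (((bxx a).sub (Bd.const V)).mul ((bxx a').sub (Bd.const V))))
    G O hdiag hG0 hO0 hoff
  have hFs : ∑ p ∈ (Icc 1 N).filter (fun p => p.Prime ∧ D < p), f p ^ 2 ≤ 4025 * (N / L) := by
    have h2 : ∑ p ∈ (Icc 1 N).filter (fun p => p.Prime ∧ D < p), w (p : ℤ) ≤
        ∑' n : ℤ, w n := by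
      have h3 := hw.sum_le_tsum
        (((Icc 1 N).filter (fun p => p.Prime ∧ D < p)).map
          ⟨(fun p : ℕ => (p : ℤ)), Nat.cast_injective⟩)
        (fun n _ => hw0 n)
      rw [sum_map] at h3
      exact h3
    have h4 : ∑' n : ℤ, w n ≤ 161 * (N / L) := by
      have h5 := (abs_le.1 cor00).2
      have h6 : ∑' n : ℤ, w n * 1 = ∑' n : ℤ, w n := tsum_congr fun n => mul_one _
      rw [h6] at h5
      have h7 := (abs_le.1 hTabs).2
      linarith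
    calc ∑ p ∈ (Icc 1 N).filter (fun p => p.Prime ∧ D < p), f p ^ 2
        ≤ ∑ p ∈ (Icc 1 N).filter (fun p => p.Prime ∧ D < p), 25 * w (p : ℤ) := by
          refine sum_le_sum fun p hp => le_trans ?_ (hw25 p hp)
          rw [← sq_abs]
          exact pow_le_one₀ (abs_nonneg _) (hf p)
      _ = 25 * ∑ p ∈ (Icc 1 N).filter (fun p => p.Prime ∧ D < p), w (p : ℤ) := by rw [mul_sum]
      _ ≤ 25 * (161 * (N / L)) := by linarith
      _ = 4025 * (N / L) := by ring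
  -- the small primes
  have hsplit : ∀ a ∈ 𝒜, (∑ p ∈ (Icc 1 N).filter Nat.Prime, f p * (xx P (p - a) - V)) ^ 2 ≤
      2 * (∑ p ∈ (Icc 1 N).filter (fun p => p.Prime ∧ D < p), f p * r a p) ^ 2 +
        2 * (D : ℝ) ^ 2 := by
    intro a _
    set S1 := (Icc 1 N).filter (fun p => p.Prime ∧ D < p) with hS1
    set S2 := (Icc 1 N).filter (fun p => p.Prime ∧ p ≤ D) with hS2
    have hu : (Icc 1 N).filter Nat.Prime = S1 ∪ S2 := by
      ext p
      rw [hS1, hS2, mem_union, mem_filter, mem_filter, mem_filter]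
      constructor
      · rintro ⟨h1, h2⟩
        rcases Nat.lt_or_ge D p with h | h
        · exact Or.inl ⟨h1, h2, h⟩
        · exact Or.inr ⟨h1, h2, h⟩
      · rintro (⟨h1, h2, -⟩ | ⟨h1, h2, -⟩) <;> exact ⟨h1, h2⟩
    have hdisj : Disjoint S1 S2 := by
      rw [Finset.disjoint_left]
      intro p h1 h2
      rw [hS1, mem_filter] at h1
      rw [hS2, mem_filter] at h2
      omega
    rw [hu, sum_union hdisj]
    have hE2 : |∑ p ∈ S2, f p * (xx P (p - a) - V)| ≤ D := by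
      refine (abs_sum_le_sum_abs _ _).trans ?_
      refine (sum_le_card_nsmul _ _ 1 (fun p _ => ?_)).trans ?_
      · rw [abs_mul]
        have h1 : |xx P (p - a) - V| ≤ 1 := by
          have h2 := xx_nonneg P (p - a)
          have h3 := xx_le_one P (p - a)
          rw [abs_le]
          constructor <;> linarith
        calc |f p| * |xx P (p - a) - V| ≤ 1 * 1 := mul_le_mul (hf p) h1 (abs_nonneg _) zero_le_one
          _ = 1 := one_mul 1
      · rw [nsmul_eq_mul, mul_one]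
        have h1 : S2 ⊆ Icc 1 D := by
          intro p hp
          rw [hS2, mem_filter, mem_Icc] at hp
          rw [mem_Icc]
          exact ⟨hp.1.1, hp.2.2⟩
        have h2 := card_le_card h1
        rw [Nat.card_Icc] at h2
        exact_mod_cast (by omega : S2.card ≤ D)
    have h2 : (∑ p ∈ S2, f p * (xx P (p - a) - V)) ^ 2 ≤ (D : ℝ) ^ 2 := by
      rw [← sq_abs]
      exact pow_le_pow_left₀ (abs_nonneg _) hE2 2
    have h3 : ∑ p ∈ S1, f p * r a p = ∑ p ∈ S1, f p * (xx P (p - a) - V) := rfl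
    rw [h3]
    nlinarith [sq_nonneg (∑ p ∈ S1, f p * (xx P (p - a) - V) -
      ∑ p ∈ S2, f p * (xx P (p - a) - V))]
  have hDD : (D : ℝ) ^ 2 ≤ N := by
    have h1 : (D : ℝ) ^ 2 ≤ ((N : ℝ) ^ (1 / 40 : ℝ)) ^ 2 :=
      pow_le_pow_left₀ (Nat.cast_nonneg _) hD1 2
    refine h1.trans ?_
    rw [← Real.rpow_natCast, ← Real.rpow_mul hN0.le]
    calc (N : ℝ) ^ ((1 / 40 : ℝ) * ((2 : ℕ) : ℝ)) ≤ (N : ℝ) ^ (1 : ℝ) :=
          Real.rpow_le_rpow_of_exponent_le hN1 (by norm_num)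
      _ = N := Real.rpow_one _
  have hc0 : (0 : ℝ) ≤ 𝒜.card := Nat.cast_nonneg _
  set c := (𝒜.card : ℝ) with hc
  have hY : ∑ a ∈ 𝒜, (∑ p ∈ (Icc 1 N).filter (fun p => p.Prime ∧ D < p), f p * r a p) ^ 2 ≤
      25 * (4025 * (N / L)) * (G + c * O) := by
    refine hdu.trans ?_
    have : 0 ≤ G + c * O := by positivity
    apply mul_le_mul_of_nonneg_right _ this
    linarith
  calc ∑ a ∈ 𝒜, (∑ p ∈ (Icc 1 N).filter Nat.Prime, f p * (xx P (p - a) - V)) ^ 2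
      ≤ ∑ a ∈ 𝒜, (2 * (∑ p ∈ (Icc 1 N).filter (fun p => p.Prime ∧ D < p), f p * r a p) ^ 2 +
        2 * (D : ℝ) ^ 2) := sum_le_sum hsplit
    _ = 2 * ∑ a ∈ 𝒜, (∑ p ∈ (Icc 1 N).filter (fun p => p.Prime ∧ D < p), f p * r a p) ^ 2 +
        c * (2 * (D : ℝ) ^ 2) := by
        rw [sum_add_distrib, ← mul_sum, sum_const, nsmul_eq_mul]
    _ ≤ 2 * (25 * (4025 * (N / L)) * (G + c * O)) + c * (ρ * V ^ 2 * (N / L) ^ 2) := by
        have h1 : c * (2 * (D : ℝ) ^ 2) ≤ c * (ρ * V ^ 2 * (N / L) ^ 2) :=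
          mul_le_mul_of_nonneg_left (by linarith) hc0
        linarith
    _ = (N / L) ^ 2 * (97405000 * V + 225601251 * ρ * (V ^ 2 * c)) := by
        rw [hG, hO]; ring
    _ ≤ (N / L) ^ 2 * (100000000 * V + Real.exp (-(A₀ / ε₁)) * V ^ 2 * c) := by
        apply mul_le_mul_of_nonneg_left _ (by positivity)
        have h1 : 225601251 * ρ * (V ^ 2 * c) ≤ Real.exp (-(A₀ / ε₁)) * (V ^ 2 * c) := by
          apply mul_le_mul_of_nonneg_right _ (by positivity)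
          linarith
        have h2 : 97405000 * V ≤ 100000000 * V := by linarith
        linarith

end Pool.Agent.W586.PL
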